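import Mathlib
import Pool.Agent.H.MP_242373_co.D

set_option autoImplicit false

namespace Pool.Agent.Results.MP_242373_co.CyclicGroup

/-- Geometric realisation of a finite complex with vertices in `Fin n` (barycentric coordinates). -/
def real {n : ℕ} (K : Finset (Finset (Fin n))) : Set (Fin n → ℝ) :=
  {x | (∀ i, 0 ≤ x i) ∧ ∑ i, x i = 1 ∧ ∃ σ ∈ K, ∀ i, i ∉ σ → x i = 0}

/-- The point of the realisation that corresponds to the vertex `v`. -/
def pt {n : ℕ} (v : Fin n) : Fin n → ℝ := Pi.single v 1

/-- The link of a vertex. -/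
def link {n : ℕ} (K : Finset (Finset (Fin n))) (v : Fin n) : Finset (Finset (Fin n)) :=
  K.filter (fun σ => v ∉ σ ∧ insert v σ ∈ K)

/-- The deletion of a vertex. -/
def del {n : ℕ} (K : Finset (Finset (Fin n))) (v : Fin n) : Finset (Finset (Fin n)) :=
  K.filter (fun σ => v ∉ σ)

/-- Non-evasive complexes: the least class that contains the one-vertex complexes and contains `L`
whenever `L` has a vertex whose link and deletion are in the class. -/
def NonEvasive {n : ℕ} (K : Finset (Finset (Fin n))) : Prop :=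
  ∀ S : Finset (Finset (Fin n)) → Prop,
    (∀ v, S {∅, {v}}) →
    (∀ L v, {v} ∈ L → S (link L v) → S (del L v) → S L) → S K

/-- `L` is a triangulated closed 2-disc and `z` is a vertex of `L` in the interior of the disc. -/
def DiscWithInteriorVertex {n : ℕ} (L : Finset (Finset (Fin n))) (z : Fin n) : Prop :=
  ∃ (hz : pt z ∈ real L)
    (h : real L ≃ₜ Metric.closedBall (0 : EuclideanSpace ℝ (Fin 2)) 1),
    ‖(h ⟨pt z, hz⟩ : EuclideanSpace ℝ (Fin 2))‖ < 1

/-- In a non-evasive complex, the complement of an edge `[u,w]` that looks locally like a spanning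
edge of a triangulated 3-ball has cyclic fundamental group. -/
theorem result (n : ℕ) (K : Finset (Finset (Fin n)))
    (hK : ∀ σ ∈ K, ∀ τ : Finset (Fin n), τ ⊆ σ → τ ∈ K) (hNE : NonEvasive K)
    (u w : Fin n) (huw : u ≠ w) (he : {u, w} ∈ K)
    (hu : DiscWithInteriorVertex (link K u) w) (hw : DiscWithInteriorVertex (link K w) u)
    (y : ↥(real K \ segment ℝ (pt u) (pt w))) :
    IsCyclic (FundamentalGroup ↥(real K \ segment ℝ (pt u) (pt w)) y) := by
  obtain ⟨h1, f1, p1⟩ := hu
  obtain ⟨h2, f2, p2⟩ := hw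
  exact Pool.Agent.H.MP_242373_co.main huw hK
    (hNE Pool.Agent.H.MP_242373_co.NE Pool.Agent.H.MP_242373_co.NE.point
      Pool.Agent.H.MP_242373_co.NE.step) he h1 f1 p1 h2 f2 p2 _ rfl y

end Pool.Agent.Results.MP_242373_co.CyclicGroup
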